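import Pool.Agent.EWG.StmtsA
import Pool.Agent.Common_PNT.PNT

/-!
# Squad EWG, row PNU: upper bound for the number of primes
-/

set_option autoImplicit false

namespace Pool.Agent.EWG.H64

open Filter Topology

theorem pnu : PnuStmt := by
  intro η hη
  have h1 := (Pool.Agent.Common_PNT.tendsto_primeCounting).comp tendsto_natCast_atTop_atTop
  have h2 : ∀ᶠ x : ℕ in atTop,
      (Nat.primeCounting ⌊(x : ℝ)⌋₊ : ℝ) / ((x : ℝ) / Real.log x) < 1 + η :=
    h1.eventually (gt_mem_nhds (by linarith))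
  obtain ⟨X, hX⟩ := eventually_atTop.1 (h2.and (eventually_ge_atTop 2))
  refine ⟨X, fun x hx => ?_⟩
  obtain ⟨h3, h4⟩ := hX x hx
  have hx1 : (1 : ℝ) < x := by exact_mod_cast (by omega : 1 < x)
  have hlog : 0 < Real.log x := Real.log_pos hx1
  have hpos : 0 < (x : ℝ) / Real.log x := div_pos (by linarith) hlog
  rw [Nat.floor_natCast, div_lt_iff₀ hpos] at h3
  refine h3.le.trans (le_of_eq ?_)
  ring

end Pool.Agent.EWG.H64
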