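import Pool.Agent.EWG.StmtsB

/-!
# Squad EWG, row TAU: the second moment of the divisor function
-/

set_option autoImplicit false

namespace Pool.Agent.EWG.H64

open Finset

lemma harm (K : ℕ) : ∑ n ∈ Ioc 0 K, (1 : ℝ) / n ≤ 1 + Real.log K := by
  have h := harmonic_le_one_add_log K
  rw [harmonic_eq_sum_Icc] at h
  push_cast at h
  have e : Icc 1 K = Ioc 0 K := by
    ext x
    rw [mem_Icc, mem_Ioc]
    omega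
  rw [e] at h
  simpa only [one_div] using h

/-- the divisors as a subset of `(0, K]` -/
lemma div_eq {K k : ℕ} (hk : k ∈ Ioc 0 K) : k.divisors = (Ioc 0 K).filter (fun d => d ∣ k) := by
  rw [mem_Ioc] at hk
  ext d
  rw [Nat.mem_divisors, mem_filter, mem_Ioc]
  constructor
  · rintro ⟨h1, h2⟩
    have := Nat.le_of_dvd hk.1 h1
    exact ⟨⟨Nat.pos_of_dvd_of_pos h1 hk.1, by omega⟩, h1⟩
  · rintro ⟨_, h⟩
    exact ⟨h, by omega⟩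

lemma sq_eq {K k : ℕ} (hk : k ∈ Ioc 0 K) : ((k.divisors.card : ℝ)) ^ 2 =
    ∑ d ∈ Ioc 0 K, ∑ d' ∈ Ioc 0 K, if d ∣ k ∧ d' ∣ k then (1 : ℝ) else 0 := by
  have h1 : ((k.divisors.card : ℝ)) = ∑ d ∈ Ioc 0 K, if d ∣ k then (1 : ℝ) else 0 := by
    rw [div_eq hk, card_filter]
    push_cast
    rfl
  rw [pow_two, h1, sum_mul_sum]
  refine sum_congr rfl fun d _ => sum_congr rfl fun d' _ => ?_
  by_cases a : d ∣ k <;> by_cases b : d' ∣ k <;> simp [a, b]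

/-- the multiples of `d` and `d'` -/
lemma cnt {K d d' : ℕ} (hd : 0 < d) :
    ∑ k ∈ Ioc 0 K, (if d ∣ k ∧ d' ∣ k then (1 : ℝ) else 0) ≤
      (K : ℝ) * (1 / (Nat.gcd d d' : ℝ) * (1 / ((d / Nat.gcd d d' : ℕ) : ℝ)) *
        (1 / ((d' / Nat.gcd d d' : ℕ) : ℝ))) := by
  have hg : 0 < Nat.gcd d d' := Nat.gcd_pos_of_pos_left _ hd
  have h1 : ∑ k ∈ Ioc 0 K, (if d ∣ k ∧ d' ∣ k then (1 : ℝ) else 0) =
      ((K / Nat.lcm d d' : ℕ) : ℝ) := by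
    have e : ∀ k, (d ∣ k ∧ d' ∣ k) ↔ Nat.lcm d d' ∣ k := fun k => Nat.lcm_dvd_iff.symm
    simp only [e]
    rw [← Nat.Ioc_filter_dvd_card_eq_div, card_filter]
    push_cast
    rfl
  rw [h1]
  refine (Nat.cast_div_le).trans ?_
  obtain ⟨a, ha⟩ : ∃ a, a = d / Nat.gcd d d' := ⟨_, rfl⟩
  obtain ⟨b, hb⟩ : ∃ b, b = d' / Nat.gcd d d' := ⟨_, rfl⟩
  obtain ⟨g, hgd⟩ : ∃ g, g = Nat.gcd d d' := ⟨_, rfl⟩
  have ea : d = g * a := by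
    rw [ha, hgd]
    exact (Nat.mul_div_cancel' (Nat.gcd_dvd_left d d')).symm
  have eb : d' = g * b := by
    rw [hb, hgd]
    exact (Nat.mul_div_cancel' (Nat.gcd_dvd_right d d')).symm
  have hl : Nat.lcm d d' = g * a * b := by
    have h2 := Nat.gcd_mul_lcm d d'
    rw [← hgd] at h2 hg
    have h3 : g * Nat.lcm d d' = g * (g * a * b) := by
      rw [h2, ea, eb]
      ring
    exact Nat.eq_of_mul_eq_mul_left hg h3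
  rw [← ha, ← hb, ← hgd, hl]
  push_cast
  apply le_of_eq
  rw [div_eq_mul_inv, one_div, one_div, one_div, mul_inv, mul_inv]

/-- the sum over the pairs -/
lemma pairs (K : ℕ) : ∑ d ∈ Ioc 0 K, ∑ d' ∈ Ioc 0 K,
    (1 / (Nat.gcd d d' : ℝ) * (1 / ((d / Nat.gcd d d' : ℕ) : ℝ)) *
      (1 / ((d' / Nat.gcd d d' : ℕ) : ℝ))) ≤ (∑ n ∈ Ioc 0 K, (1 : ℝ) / n) ^ 3 := by
  obtain ⟨F, hF⟩ : ∃ F : ℕ × ℕ × ℕ → ℝ, F = fun t =>
      1 / (t.1 : ℝ) * (1 / (t.2.1 : ℝ)) * (1 / (t.2.2 : ℝ)) := ⟨_, rfl⟩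
  obtain ⟨i, hi⟩ : ∃ i : ℕ × ℕ → ℕ × ℕ × ℕ, i = fun p =>
      (Nat.gcd p.1 p.2, p.1 / Nat.gcd p.1 p.2, p.2 / Nat.gcd p.1 p.2) := ⟨_, rfl⟩
  have h1 : ∑ d ∈ Ioc 0 K, ∑ d' ∈ Ioc 0 K,
      (1 / (Nat.gcd d d' : ℝ) * (1 / ((d / Nat.gcd d d' : ℕ) : ℝ)) *
        (1 / ((d' / Nat.gcd d d' : ℕ) : ℝ))) = ∑ p ∈ Ioc 0 K ×ˢ Ioc 0 K, F (i p) := by
    rw [sum_product, hF, hi]
  have hinj : Set.InjOn i (Ioc 0 K ×ˢ Ioc 0 K : Finset (ℕ × ℕ)) := by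
    rintro ⟨a, b⟩ _ ⟨a', b'⟩ _ h
    rw [hi] at h
    simp only [Prod.mk.injEq] at h
    obtain ⟨e1, e2, e3⟩ := h
    have f1 := Nat.div_mul_cancel (Nat.gcd_dvd_left a b)
    have f2 := Nat.div_mul_cancel (Nat.gcd_dvd_right a b)
    have f3 := Nat.div_mul_cancel (Nat.gcd_dvd_left a' b')
    have f4 := Nat.div_mul_cancel (Nat.gcd_dvd_right a' b')
    rw [e2, e1, f3] at f1
    rw [e3, e1, f4] at f2
    rw [← f1, ← f2]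
  have h2 : ∑ p ∈ Ioc 0 K ×ˢ Ioc 0 K, F (i p) =
      ∑ t ∈ (Ioc 0 K ×ˢ Ioc 0 K).image i, F t := (sum_image hinj).symm
  have h3 : (Ioc 0 K ×ˢ Ioc 0 K).image i ⊆ Ioc 0 K ×ˢ (Ioc 0 K ×ˢ Ioc 0 K) := by
    intro t ht
    rw [mem_image] at ht
    obtain ⟨⟨a, b⟩, hab, rfl⟩ := ht
    rw [mem_product, mem_Ioc, mem_Ioc] at hab
    obtain ⟨⟨ha1, ha2⟩, hb1, hb2⟩ := hab
    simp only at ha1 ha2 hb1 hb2
    rw [hi]
    have hg : 0 < Nat.gcd a b := Nat.gcd_pos_of_pos_left _ ha1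
    have hga : Nat.gcd a b ≤ a := Nat.le_of_dvd ha1 (Nat.gcd_dvd_left a b)
    have hgb : Nat.gcd a b ≤ b := Nat.le_of_dvd hb1 (Nat.gcd_dvd_right a b)
    simp only [mem_product, mem_Ioc]
    refine ⟨⟨hg, hga.trans ha2⟩, ⟨Nat.div_pos hga hg, (Nat.div_le_self _ _).trans ha2⟩,
      Nat.div_pos hgb hg, (Nat.div_le_self _ _).trans hb2⟩
  have hpos : ∀ t, 0 ≤ F t := by
    intro t
    rw [hF]
    positivity
  have h4 : ∑ t ∈ Ioc 0 K ×ˢ (Ioc 0 K ×ˢ Ioc 0 K), F t = (∑ n ∈ Ioc 0 K, (1 : ℝ) / n) ^ 3 := by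
    rw [hF, sum_product]
    simp only
    have e : ∀ x ∈ Ioc 0 K, ∑ y ∈ Ioc 0 K ×ˢ Ioc 0 K,
        1 / (x : ℝ) * (1 / (y.1 : ℝ)) * (1 / (y.2 : ℝ)) =
          1 / (x : ℝ) * ((∑ n ∈ Ioc 0 K, (1 : ℝ) / n) * (∑ n ∈ Ioc 0 K, (1 : ℝ) / n)) := by
      intro x _
      rw [sum_product, sum_mul_sum, mul_sum]
      refine sum_congr rfl fun a _ => ?_
      rw [mul_sum]
      refine sum_congr rfl fun b _ => ?_
      ring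
    rw [sum_congr rfl e, ← sum_mul]
    ring
  rw [h1, h2, ← h4]
  exact sum_le_sum_of_subset_of_nonneg h3 fun t _ _ => hpos t

theorem tau : TauStmt := by
  intro K
  have h1 : ∑ k ∈ Ioc 0 K, ((k.divisors.card : ℝ)) ^ 2 =
      ∑ d ∈ Ioc 0 K, ∑ d' ∈ Ioc 0 K, ∑ k ∈ Ioc 0 K,
        (if d ∣ k ∧ d' ∣ k then (1 : ℝ) else 0) := by
    rw [sum_congr rfl fun k hk => sq_eq hk, sum_comm]
    refine sum_congr rfl fun d _ => ?_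
    rw [sum_comm]
  rw [h1]
  have h2 : ∑ d ∈ Ioc 0 K, ∑ d' ∈ Ioc 0 K, ∑ k ∈ Ioc 0 K,
      (if d ∣ k ∧ d' ∣ k then (1 : ℝ) else 0) ≤ ∑ d ∈ Ioc 0 K, ∑ d' ∈ Ioc 0 K,
        (K : ℝ) * (1 / (Nat.gcd d d' : ℝ) * (1 / ((d / Nat.gcd d d' : ℕ) : ℝ)) *
          (1 / ((d' / Nat.gcd d d' : ℕ) : ℝ))) := by
    refine sum_le_sum fun d hd => sum_le_sum fun d' _ => ?_
    exact cnt (mem_Ioc.1 hd).1
  refine h2.trans ?_
  have h3 : ∑ d ∈ Ioc 0 K, ∑ d' ∈ Ioc 0 K,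
      (K : ℝ) * (1 / (Nat.gcd d d' : ℝ) * (1 / ((d / Nat.gcd d d' : ℕ) : ℝ)) *
        (1 / ((d' / Nat.gcd d d' : ℕ) : ℝ))) = (K : ℝ) * ∑ d ∈ Ioc 0 K, ∑ d' ∈ Ioc 0 K,
          (1 / (Nat.gcd d d' : ℝ) * (1 / ((d / Nat.gcd d d' : ℕ) : ℝ)) *
            (1 / ((d' / Nat.gcd d d' : ℕ) : ℝ))) := by
    rw [mul_sum]
    refine sum_congr rfl fun d _ => ?_
    rw [mul_sum]
  rw [h3]
  refine mul_le_mul_of_nonneg_left ((pairs K).trans ?_) (Nat.cast_nonneg K)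
  refine pow_le_pow_left₀ (sum_nonneg fun n _ => by positivity) (harm K) 3

end Pool.Agent.EWG.H64
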